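import Pool.Agent.helper95.DP.SpecH

/-! # dp: module HK2 (changing one site keeps an infinite cluster) -/

namespace DP

theorem HK2_box (x : V) : {v : V | sd x v ≤ 1}.Finite := box_finite x 1

theorem HK2 : HK2_stmt := by
  intro c c' k v₀ hc hP
  by_contra hcon
  have hfin : ∀ w : V, {v | Conn c' k Set.univ w v}.Finite := by
    intro w
    by_contra h
    exact hcon ⟨w, h⟩
  obtain ⟨u, hu⟩ := hP
  apply hu
  have hsub : {v | Conn c k Set.univ u v} ⊆
      {v₀} ∪ ⋃ w ∈ insert u {v : V | sd v₀ v ≤ 1}, {v | Conn c' k Set.univ w v} := by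
    intro v hv
    have hv' : Conn c k Set.univ u v := hv
    obtain ⟨hu1, hr⟩ := hv'
    induction hr with
    | refl =>
      by_cases h : u = v₀
      · left; exact h
      · right
        refine Set.mem_biUnion (Set.mem_insert _ _) ?_
        exact Con.refl ⟨trivial, by rw [hc u h]; exact hu1.2⟩
    | @tail a b hab hstep ih =>
      by_cases h : b = v₀
      · left; exact h
      · right
        have hb : b ∈ {w : V | w ∈ (Set.univ : Set V) ∧ c' w = k} :=
          ⟨trivial, by rw [hc b h]; exact hstep.2.2⟩
        rcases ih ⟨hu1, hab⟩ with ha | ha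
        · have ha' : a = v₀ := ha
          subst ha'
          refine Set.mem_biUnion (x := b) (Set.mem_insert_of_mem _ ?_) ?_
          · show sd a b ≤ 1
            rw [hstep.1.sd]
          · exact Con.refl hb
        · obtain ⟨w, hw, hwa⟩ := Set.mem_iUnion₂.1 ha
          refine Set.mem_biUnion hw ?_
          have hwa' : Conn c' k Set.univ w a := hwa
          exact Con.tail hwa' hstep.1 hb
  refine Set.Finite.subset ?_ hsub
  refine (Set.finite_singleton _).union ?_
  refine Set.Finite.biUnion ?_ fun w _ => hfin w
  exact (HK2_box v₀).insert _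

end DP
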