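import Pool.Agent.helper95.DP.SpecH

/-! # dp: module HSB (substitution `t = 1 - exp (-u)`) -/

namespace DP

open MeasureTheory

theorem HSB_wt (a : Bool × Bool) : Continuous fun r : ℝ => wt r a := by
  unfold wt
  fun_prop

open Classical in
theorem HSB_cont (Λ : Finset V) (f : (V → Bool) → ℝ) (S : Set V) (hf : LF Λ f) :
    Continuous fun t : ℝ => bf (fun v => if v ∈ S then t else 1) f f := by
  have h1 : (fun t : ℝ => bf (fun v => if v ∈ S then t else 1) f f) = fun t : ℝ =>
      ∑ x : Λ → Bool × Bool, (∏ v, wt (if v.1 ∈ S then t else 1) (x v)) *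
        (f (fun v => (ext Λ x v).1) * f (fun v => (ext Λ x v).2)) := by
    funext t
    unfold bf
    rw [ex2_eq_sum _ (lf_pair hf hf)]
  rw [h1]
  refine continuous_finsetSum _ fun x _ => ?_
  refine Continuous.mul ?_ continuous_const
  refine continuous_finsetProd _ fun v _ => ?_
  by_cases hv : v.1 ∈ S
  · simp only [hv, if_true]
    exact HSB_wt _
  · simp only [hv, if_false]
    exact continuous_const

theorem HSB : HSB_stmt := by
  classical
  intro Λ f S hf
  set g : ℝ → ℝ := fun t => bf (open Classical in fun v => if v ∈ S then t else 1) f f with hg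
  have hgc : Continuous g := HSB_cont Λ f S hf
  have hg0 : ∀ t, 0 ≤ g t := fun t => bf_nonneg _ hf
  have hh : Continuous fun u : ℝ => 1 - Real.exp (-u) := by fun_prop
  have hsub : ∫ u in (0 : ℝ)..1, (g ∘ fun u => 1 - Real.exp (-u)) u * Real.exp (-u) =
      ∫ t in (1 - Real.exp (-0))..(1 - Real.exp (-1)), g t := by
    refine intervalIntegral.integral_comp_mul_deriv (f := fun u => 1 - Real.exp (-u)) ?_ ?_ hgc
    · intro u _
      have h1 : HasDerivAt (fun u : ℝ => Real.exp (-u)) (Real.exp (-u) * (-1)) u :=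
        (hasDerivAt_neg u).exp
      have h2 : HasDerivAt (fun u : ℝ => 1 - Real.exp (-u)) (-(Real.exp (-u) * (-1))) u :=
        h1.const_sub 1
      rwa [show -(Real.exp (-u) * (-1)) = Real.exp (-u) by ring] at h2
    · exact (by fun_prop : Continuous fun u : ℝ => Real.exp (-u)).continuousOn
  have he : Real.exp (-1) < 1 := by
    rw [Real.exp_lt_one_iff]; norm_num
  have he0 : 0 < Real.exp (-1) := Real.exp_pos _
  have h3 : (1 : ℝ) / 3 ≤ Real.exp (-1) := by
    rw [Real.exp_neg, ← one_div]
    refine one_div_le_one_div_of_le (Real.exp_pos _) ?_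
    have := Real.exp_one_lt_d9
    linarith
  have step1 : ∫ u in (0 : ℝ)..1, g (1 - Real.exp (-u)) ≤
      ∫ u in (0 : ℝ)..1, 3 * ((g ∘ fun u => 1 - Real.exp (-u)) u * Real.exp (-u)) := by
    refine intervalIntegral.integral_mono_on zero_le_one ?_ ?_ ?_
    · exact (hgc.comp hh).intervalIntegrable _ _
    · refine Continuous.intervalIntegrable ?_ _ _
      have := hgc.comp hh
      fun_prop
    · intro u hu
      have hu1 : Real.exp (-1) ≤ Real.exp (-u) := Real.exp_le_exp.2 (by linarith [hu.2])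
      have h4 := hg0 (1 - Real.exp (-u))
      have h5 : 1 ≤ 3 * Real.exp (-u) := by linarith
      show g (1 - Real.exp (-u)) ≤ 3 * (g (1 - Real.exp (-u)) * Real.exp (-u))
      nlinarith
  have step2 : ∫ t in (1 - Real.exp (-0))..(1 - Real.exp (-1)), g t ≤ ∫ t in (0 : ℝ)..1, g t := by
    have h6 : (1 : ℝ) - Real.exp (-0) = 0 := by simp
    rw [h6]
    have h7 : ∫ t in (0 : ℝ)..1, g t = (∫ t in (0 : ℝ)..(1 - Real.exp (-1)), g t) +
        ∫ t in (1 - Real.exp (-1))..1, g t :=
      (intervalIntegral.integral_add_adjacent_intervals (hgc.intervalIntegrable _ _)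
        (hgc.intervalIntegrable _ _)).symm
    have h8 : 0 ≤ ∫ t in (1 - Real.exp (-1))..1, g t :=
      intervalIntegral.integral_nonneg (by linarith) fun t _ => hg0 t
    linarith
  calc ∫ u in (0 : ℝ)..1, g (1 - Real.exp (-u))
      ≤ ∫ u in (0 : ℝ)..1, 3 * ((g ∘ fun u => 1 - Real.exp (-u)) u * Real.exp (-u)) := step1
    _ = 3 * ∫ u in (0 : ℝ)..1, (g ∘ fun u => 1 - Real.exp (-u)) u * Real.exp (-u) := by
        rw [intervalIntegral.integral_const_mul]
    _ ≤ 3 * ∫ t in (0 : ℝ)..1, g t := by rw [hsub]; linarith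

end DP
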